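import Pool.Agent.R643.PH

set_option autoImplicit false

/-!
# The free group of rank two has property (PH) from focal actions

Write `F₂ = F_∞ ⋊ ℤ`, where `F_∞` is free on `x_i`, `i ∈ ℤ`, and the generator `t` of `ℤ` shifts the
free generators. Give `x_i` the weight `2^{-i}` and let `u` be the corresponding weighted word norm
on `F_∞`. Conjugation by `t` halves `u`, so that the Cayley graph of `F₂` with respect to the
(infinite) generating set consisting of `t` and of all `g ∈ F_∞` with `u(g) ≤ 1` is hyperbolic, and
the action of `F₂` on it is focal. The weights `2^i` give a second focal action, on which `t` acts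
in the opposite direction. Only finitely many words have bounded weight in both senses, so that the
diagonal action is proper.
-/

namespace Pool.Agent.Results.MP_d5cca6_al.FreeGroupFocal

open Pool.Agent.R643

/-- The group `G` is amenable: there is a left invariant finitely additive probability measure
defined on all its subsets. -/
def IsAmenable (G : Type) [Group G] : Prop :=
  ∃ m : Set G → ℝ, (∀ A, 0 ≤ m A) ∧ m Set.univ = 1 ∧
    (∀ A B, Disjoint A B → m (A ∪ B) = m A + m B) ∧ ∀ (g : G) (A : Set G), m ((g * ·) '' A) = m A

/-- free groups of rank two are not amenable -/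
theorem not_amenable : ¬ IsAmenable (FreeGroup (Fin 2)) := by
  rintro ⟨m, h0, h1, hadd, hinv⟩
  have mono : ∀ A B : Set (FreeGroup (Fin 2)), A ⊆ B → m A ≤ m B := by
    intro A B hAB
    have := hadd A (B \ A) Set.disjoint_sdiff_right
    rw [Set.union_sdiff_cancel hAB] at this
    linarith [h0 (B \ A)]
  have key : ∀ w : Fin 2 × Bool, 1 ≤ m (FreeGroup.startsWith w) +
      m (FreeGroup.startsWith (w.1, !w.2)) := by
    intro w
    have e1 : m Set.univ = m (FreeGroup.startsWith (w.1, !w.2)) +
        m (FreeGroup.startsWith (w.1, !w.2))ᶜ := by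
      rw [← hadd _ _ disjoint_compl_right, Set.union_compl_self]
    have e2 : (FreeGroup.mk [w] * ·) '' (FreeGroup.startsWith (w.1, !w.2))ᶜ ⊆
        FreeGroup.startsWith w := by
      rintro _ ⟨g, hg, rfl⟩
      exact FreeGroup.startsWith_mk_mul g hg
    have e3 := mono _ _ e2
    rw [hinv] at e3
    linarith
  have k0 := key (0, true)
  have k1 := key (1, true)
  have d : ∀ v w : Fin 2 × Bool, v ≠ w → Disjoint (FreeGroup.startsWith v)
      (FreeGroup.startsWith w) := fun v w h => FreeGroup.startsWith.disjoint_iff_ne.2 h
  have u1 := hadd (FreeGroup.startsWith ((0 : Fin 2), true)) (FreeGroup.startsWith (0, !true))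
    (d _ _ (by decide))
  have u2 := hadd (FreeGroup.startsWith ((1 : Fin 2), true)) (FreeGroup.startsWith (1, !true))
    (d _ _ (by decide))
  have u3 := hadd (FreeGroup.startsWith ((0 : Fin 2), true) ∪ FreeGroup.startsWith (0, !true))
    (FreeGroup.startsWith ((1 : Fin 2), true) ∪ FreeGroup.startsWith (1, !true)) (by
      rw [Set.disjoint_union_left, Set.disjoint_union_right, Set.disjoint_union_right]
      exact ⟨⟨d _ _ (by decide), d _ _ (by decide)⟩, d _ _ (by decide), d _ _ (by decide)⟩)
  have u4 := mono (FreeGroup.startsWith ((0 : Fin 2), true) ∪ FreeGroup.startsWith (0, !true) ∪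
    (FreeGroup.startsWith ((1 : Fin 2), true) ∪ FreeGroup.startsWith (1, !true))) Set.univ
    (Set.subset_univ _)
  rw [u3, u1, u2, h1] at u4
  simp only at k0 k1
  linarith

/-- the generators -/
abbrev a : FreeGroup (Fin 2) := FreeGroup.of 0

abbrev b : FreeGroup (Fin 2) := FreeGroup.of 1

/-- the embedding of the free group of infinite rank -/
def f1 : FreeGroup ℤ →* FreeGroup (Fin 2) := FreeGroup.lift (fun i => b ^ i * a * (b ^ i)⁻¹)

def f2 : Multiplicative ℤ →* FreeGroup (Fin 2) := zpowersHom _ b

theorem f2_apply (n : Multiplicative ℤ) : f2 n = b ^ n.toAdd := rfl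

theorem f12 (n : Multiplicative ℤ) : f1.comp (phi n).toMonoidHom =
    (MulAut.conj (f2 n)).toMonoidHom.comp f1 := by
  apply FreeGroup.ext_hom
  intro i
  show f1 (phi n (FreeGroup.of i)) = f2 n * f1 (FreeGroup.of i) * (f2 n)⁻¹
  rw [phi_apply, shift_of, f2_apply]
  unfold f1
  rw [FreeGroup.lift_apply_of, FreeGroup.lift_apply_of, add_comm, zpow_add]
  group

/-- the isomorphism of the free group of rank two with the semidirect product -/
noncomputable def e : FreeGroup (Fin 2) ≃* Sd :=
  MonoidHom.toMulEquiv
    (FreeGroup.lift ![SemidirectProduct.inl (FreeGroup.of 0),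
      SemidirectProduct.inr (Multiplicative.ofAdd 1)])
    (SemidirectProduct.lift f1 f2 f12)
    (by
      apply FreeGroup.ext_hom
      intro i
      fin_cases i
      · show SemidirectProduct.lift f1 f2 f12 (FreeGroup.lift ![SemidirectProduct.inl
          (FreeGroup.of 0), SemidirectProduct.inr (Multiplicative.ofAdd 1)] (FreeGroup.of 0)) = a
        rw [FreeGroup.lift_apply_of]
        show SemidirectProduct.lift f1 f2 f12 (SemidirectProduct.inl (FreeGroup.of 0)) = a
        rw [SemidirectProduct.lift_inl]
        unfold f1
        rw [FreeGroup.lift_apply_of]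
        simp
      · show SemidirectProduct.lift f1 f2 f12 (FreeGroup.lift ![SemidirectProduct.inl
          (FreeGroup.of 0), SemidirectProduct.inr (Multiplicative.ofAdd 1)] (FreeGroup.of 1)) = b
        rw [FreeGroup.lift_apply_of]
        show SemidirectProduct.lift f1 f2 f12 (SemidirectProduct.inr (Multiplicative.ofAdd 1)) = b
        rw [SemidirectProduct.lift_inr, f2_apply, toAdd_ofAdd, zpow_one])
    (by
      apply SemidirectProduct.hom_ext
      · apply FreeGroup.ext_hom
        intro i
        show FreeGroup.lift ![SemidirectProduct.inl (FreeGroup.of 0),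
          SemidirectProduct.inr (Multiplicative.ofAdd 1)]
          (SemidirectProduct.lift f1 f2 f12 (SemidirectProduct.inl (FreeGroup.of i))) =
          SemidirectProduct.inl (FreeGroup.of i)
        rw [SemidirectProduct.lift_inl]
        unfold f1
        rw [FreeGroup.lift_apply_of, map_mul, map_mul, map_inv, map_zpow, FreeGroup.lift_apply_of,
          FreeGroup.lift_apply_of]
        show (SemidirectProduct.inr (Multiplicative.ofAdd 1)) ^ i *
          SemidirectProduct.inl (FreeGroup.of 0) *
          ((SemidirectProduct.inr (Multiplicative.ofAdd 1)) ^ i)⁻¹ =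
          SemidirectProduct.inl (FreeGroup.of i)
        rw [← map_zpow, ← map_inv, ← SemidirectProduct.inl_aut, phi_apply, shift_of]
        congr 2
        rw [toAdd_zpow, toAdd_ofAdd]; simp
      · apply MonoidHom.ext_mint
        show FreeGroup.lift ![SemidirectProduct.inl (FreeGroup.of 0),
          SemidirectProduct.inr (Multiplicative.ofAdd 1)]
          (SemidirectProduct.lift f1 f2 f12 (SemidirectProduct.inr
            (Multiplicative.ofAdd (1 : ℤ)))) =
          SemidirectProduct.inr (Multiplicative.ofAdd (1 : ℤ))
        rw [SemidirectProduct.lift_inr, f2_apply, toAdd_ofAdd, zpow_one, FreeGroup.lift_apply_of]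
        rfl)

/-- **A finitely generated non-amenable group with property (PH) from focal and lineal actions.** -/
theorem result : Group.FG (FreeGroup (Fin 2)) ∧ ¬ IsAmenable (FreeGroup (Fin 2)) ∧
    HasPH (FreeGroup (Fin 2)) := by
  refine ⟨inferInstance, not_amenable, ⊤, inferInstance, ?_⟩
  exact hasPHPrime (Subgroup.topEquiv.trans e)

end Pool.Agent.Results.MP_d5cca6_al.FreeGroupFocal
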